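import Pool.Agent.Q196.LichMain

/-!
# Nonnegativity of the Lichnerowicz curvature term on symmetric 3-tensors does not imply
# nonnegativity on symmetric 2-tensors

The notions (`IsSymmTensor`, `curvAct`, `ricL`, `tensorInner`, `LCondAt`, `LCond`) are defined in
`Pool.Agent.Q196.LichDefs`; Riemannian metrics, their coefficients in charts, the Levi-Civita
symbols and the curvature tensor (`RMetric`, `chartCoeff`, `koszul`, `riem`) are defined in
`Pool.Agent.H839R2.Geo.Stmt`.

The example is the product `S² × S²` of two unit spheres with the warped metric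
`g = g_{S²} + φ² g_{S²}`, `φ(x) = 1 + ε - ε x_0`, `ε = 1/100`. At the points over the maximum of
`x_0` the mixed sectional curvatures are `-ε`, the others are about one.
-/

open scoped Manifold ContDiff
open Pool.Agent.H839R2.Stmt Q196.Lich

namespace Pool.Agent.Results.MP_9e0eae_gt.WarpedSpheres

/-- There is a closed connected Riemannian manifold of dimension four that satisfies `(L_3)`, i.e.
`g(Ric_L(T), T) ≥ 0` for all symmetric `(0, 3)`-tensors `T`, but not `(L_2)`. -/
theorem result :
    ∃ (E : Type) (_ : NormedAddCommGroup E) (_ : NormedSpace ℝ E) (_ : FiniteDimensional ℝ E)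
      (H : Type) (_ : TopologicalSpace H) (I : ModelWithCorners ℝ E H)
      (M : Type) (_ : TopologicalSpace M) (_ : ChartedSpace H M) (_ : IsManifold I ∞ M)
      (g : RMetric I M),
      (I.Boundaryless ∧ CompactSpace M ∧ T2Space M ∧ ConnectedSpace M ∧
        Module.finrank ℝ E = 4) ∧
      LCond 3 g ∧ ¬ LCond 2 g := by
  refine ⟨F4, inferInstance, inferInstance, inferInstance,
    ModelProd (EuclideanSpace ℝ (Fin 2)) (EuclideanSpace ℝ (Fin 2)), inferInstance, I4,
    N4, inferInstance, inferInstance, inferInstance, gN,
    ⟨inferInstance, inferInstance, inferInstance, inferInstance, finrank_F4⟩,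
    lcond3, not_lcond2⟩

end Pool.Agent.Results.MP_9e0eae_gt.WarpedSpheres
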